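import Pool.Agent.Lib.MP_04276e_nt.DM.Defs

/-!
# Counting the pairs `(n,m)` of two boxes with given `R n - Q m`

PROOF OF `fiber_one`. `R n ≡ u (mod Q)` fixes `n mod Q` (`R` invertible mod `Q`), and `n` fixes `m`; so there are at
most `⌈X/Q⌉ ≤ X/Q + 1 ≤ 2X/Q` pairs (`Q ≤ X`). Symmetrically `≤ 2X'/R`.
`pairs_card`: the fibre over `u` is the product over `i` of the one-coordinate fibres.
-/

set_option autoImplicit false

open MeasureTheory Finset

namespace Pool.DM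

/-- Pairs with `b n - a m = u`, `X ≤ n < 2 X`. -/
theorem fib_aux (a b : ℕ) (ha : 0 < a) (hco : Nat.Coprime a b) (X : ℕ) (hX : a ≤ X) (u : ℤ)
    (S : Finset (ℤ × ℤ)) (h : ∀ p ∈ S, (X : ℤ) ≤ p.1 ∧ p.1 < 2 * X ∧ (b : ℤ) * p.1 - a * p.2 = u) :
    (S.card : ℝ) ≤ 2 * (X : ℝ) / a := by
  have ha' : (0 : ℝ) < a := by exact_mod_cast ha
  have haz : (0 : ℤ) < a := by exact_mod_cast ha
  rcases S.eq_empty_or_nonempty with hS | ⟨p0, hp0⟩
  · rw [hS, card_empty, Nat.cast_zero]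
    positivity
  · have hcop : IsCoprime (a : ℤ) (b : ℤ) := Nat.isCoprime_iff_coprime.2 hco
    have hinj : Set.InjOn Prod.fst (S : Set (ℤ × ℤ)) := by
      intro p hp q hq hpq
      have h1 := (h p hp).2.2
      have h2 := (h q hq).2.2
      have h3 : (a : ℤ) * p.2 = a * q.2 := by
        rw [hpq] at h1
        linarith
      exact Prod.ext hpq (mul_left_cancel₀ haz.ne' h3)
    have hsub : S.image Prod.fst ⊆
        (Finset.Ico (X : ℤ) (2 * X)).filter (fun x => x ≡ p0.1 [ZMOD a]) := by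
      intro x hx
      obtain ⟨p, hp, rfl⟩ := Finset.mem_image.1 hx
      obtain ⟨h1, h2, h3⟩ := h p hp
      have h4 := (h p0 hp0).2.2
      refine Finset.mem_filter.2 ⟨Finset.mem_Ico.2 ⟨h1, h2⟩, ?_⟩
      have h5 : (a : ℤ) ∣ b * (p0.1 - p.1) := ⟨p0.2 - p.2, by linarith⟩
      have h6 : (a : ℤ) ∣ p0.1 - p.1 := hcop.dvd_of_dvd_mul_left h5
      exact (Int.modEq_iff_dvd.2 h6)
    have hc1 : S.card ≤ ((Finset.Ico (X : ℤ) (2 * X)).filter
        (fun x => x ≡ p0.1 [ZMOD a])).card := by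
      rw [← Finset.card_image_of_injOn hinj]
      exact Finset.card_le_card hsub
    have hc2 := Int.Ico_filter_modEq_card (X : ℤ) (2 * X) haz p0.1
    have hc3 : (((Finset.Ico (X : ℤ) (2 * X)).filter (fun x => x ≡ p0.1 [ZMOD a])).card : ℝ) ≤
        (X : ℝ) / a + 1 := by
      have h1 : (((Finset.Ico (X : ℤ) (2 * X)).filter
          (fun x => x ≡ p0.1 [ZMOD a])).card : ℚ) ≤ (X : ℚ) / a + 1 := by
        have h2 : ((((Finset.Ico (X : ℤ) (2 * X)).filter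
          (fun x => x ≡ p0.1 [ZMOD a])).card : ℤ) : ℚ) ≤ (X : ℚ) / a + 1 := by
          rw [hc2, Int.cast_max, Int.cast_sub]
          apply max_le
          · have h3 := Int.ceil_lt_add_one (((2 * (X : ℤ) : ℤ) - p0.1 : ℚ) / ((a : ℤ) : ℚ))
            have h4 := Int.le_ceil ((((X : ℤ) : ℚ) - p0.1) / ((a : ℤ) : ℚ))
            have h5 : (((2 * (X : ℤ) : ℤ) - p0.1 : ℚ) / ((a : ℤ) : ℚ)) -
                (((X : ℤ) : ℚ) - p0.1) / ((a : ℤ) : ℚ) = (X : ℚ) / a := by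
              push_cast
              ring
            push_cast at h3 h4 h5 ⊢
            linarith
          · rw [Int.cast_zero]
            positivity
        exact_mod_cast h2
      have h1' := (Rat.cast_le (K := ℝ)).2 h1
      rw [Rat.cast_natCast] at h1'
      refine h1'.trans (le_of_eq ?_)
      push_cast
      rfl
    have hc4 : (1 : ℝ) ≤ (X : ℝ) / a := by
      rw [le_div_iff₀ ha', one_mul]
      exact_mod_cast hX
    have hc5 : (S.card : ℝ) ≤ (X : ℝ) / a + 1 := le_trans (by exact_mod_cast hc1) hc3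
    have hc6 : 2 * (X : ℝ) / a = (X : ℝ) / a + (X : ℝ) / a := by ring
    linarith

theorem fiber_one (Q R : ℕ) (hQ : 0 < Q) (hR : 0 < R) (hco : Nat.Coprime Q R) (X X' : ℕ)
    (hX : Q ≤ X) (hX' : R ≤ X') (u : ℤ) :
    ((((Finset.Ico (X : ℤ) (2 * X)) ×ˢ (Finset.Ico (X' : ℤ) (2 * X'))).filter
      (fun p => (R : ℤ) * p.1 - Q * p.2 = u)).card : ℝ)
      ≤ min (2 * (X : ℝ) / Q) (2 * (X' : ℝ) / R) := by
  apply le_min
  · apply fib_aux Q R hQ hco X hX u
    intro p hp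
    obtain ⟨h1, h2⟩ := Finset.mem_filter.1 hp
    obtain ⟨h3, h4⟩ := Finset.mem_product.1 h1
    obtain ⟨h5, h6⟩ := Finset.mem_Ico.1 h3
    exact ⟨h5, h6, h2⟩
  · have key := fib_aux R Q hR hco.symm X' hX' (-u)
      ((((Finset.Ico (X : ℤ) (2 * X)) ×ˢ (Finset.Ico (X' : ℤ) (2 * X'))).filter
      (fun p => (R : ℤ) * p.1 - Q * p.2 = u)).image Prod.swap) (by
        intro p hp
        obtain ⟨p', hp', rfl⟩ := Finset.mem_image.1 hp
        obtain ⟨h1, h2⟩ := Finset.mem_filter.1 hp'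
        obtain ⟨h3, h4⟩ := Finset.mem_product.1 h1
        obtain ⟨h5, h6⟩ := Finset.mem_Ico.1 h4
        refine ⟨h5, h6, ?_⟩
        simp only [Prod.fst_swap, Prod.snd_swap]
        linarith)
    rwa [Finset.card_image_of_injective _ Prod.swap_injective] at key

theorem pairs_card {d : ℕ} (Q R : ℕ) (hQ : 0 < Q) (hR : 0 < R) (hco : Nat.Coprime Q R)
    (x x' : Fin d → ℕ) (hx : ∀ i, Q ≤ 2 ^ (x i)) (hx' : ∀ i, R ≤ 2 ^ (x' i))
    (B : Finset (Fin d → ℤ)) :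
    (((box x ×ˢ box x').filter
      (fun p => (fun i => (R : ℤ) * p.1 i - Q * p.2 i) ∈ B)).card : ℝ)
      ≤ B.card * ∏ i, min (2 * (2 : ℝ) ^ (x i) / Q) (2 * (2 : ℝ) ^ (x' i) / R) := by
  classical
  have h1 : ((box x ×ˢ box x').filter
      (fun p => (fun i => (R : ℤ) * p.1 i - Q * p.2 i) ∈ B)).card =
      ∑ u ∈ B, ((((box x ×ˢ box x').filter
      (fun p => (fun i => (R : ℤ) * p.1 i - Q * p.2 i) ∈ B)).filter
      (fun p => (fun i => (R : ℤ) * p.1 i - Q * p.2 i) = u)).card) :=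
    Finset.card_eq_sum_card_fiberwise (fun p hp => (Finset.mem_filter.1 hp).2)
  rw [h1, Nat.cast_sum]
  rw [← nsmul_eq_mul]
  refine Finset.sum_le_card_nsmul B _ _ fun u _ => ?_
  have h2 : (((box x ×ˢ box x').filter
      (fun p => (fun i => (R : ℤ) * p.1 i - Q * p.2 i) ∈ B)).filter
      (fun p => (fun i => (R : ℤ) * p.1 i - Q * p.2 i) = u)).card ≤
      (Fintype.piFinset (fun i => (((Finset.Ico (((2 ^ (x i) : ℕ)) : ℤ) (2 * ((2 ^ (x i) : ℕ)))) ×ˢ
        (Finset.Ico (((2 ^ (x' i) : ℕ)) : ℤ) (2 * ((2 ^ (x' i) : ℕ))))).filter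
      (fun p => (R : ℤ) * p.1 - Q * p.2 = u i)))).card := by
    apply Finset.card_le_card_of_injOn (fun p i => (p.1 i, p.2 i))
    · intro p hp
      have hp' := Finset.mem_coe.1 hp
      obtain ⟨a1, a2⟩ := Finset.mem_filter.1 hp'
      obtain ⟨a3, -⟩ := Finset.mem_filter.1 a1
      obtain ⟨a4, a5⟩ := Finset.mem_product.1 a3
      unfold box at a4 a5
      rw [Fintype.mem_piFinset] at a4 a5
      refine Finset.mem_coe.2 (Fintype.mem_piFinset.2 fun i => ?_)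
      refine Finset.mem_filter.2 ⟨Finset.mem_product.2 ⟨?_, ?_⟩, ?_⟩
      · have h3 := a4 i
        rw [Finset.mem_Ico] at h3 ⊢
        push_cast
        rw [pow_succ] at h3
        exact ⟨h3.1, by linarith [h3.2]⟩
      · have h3 := a5 i
        rw [Finset.mem_Ico] at h3 ⊢
        push_cast
        rw [pow_succ] at h3
        exact ⟨h3.1, by linarith [h3.2]⟩
      · exact congrFun a2 i
    · intro p _ q _ hpq
      refine Prod.ext ?_ ?_
      · funext i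
        exact congrArg Prod.fst (congrFun hpq i)
      · funext i
        exact congrArg Prod.snd (congrFun hpq i)
  have h3 : ((Fintype.piFinset (fun i =>
      (((Finset.Ico (((2 ^ (x i) : ℕ)) : ℤ) (2 * ((2 ^ (x i) : ℕ)))) ×ˢ
        (Finset.Ico (((2 ^ (x' i) : ℕ)) : ℤ) (2 * ((2 ^ (x' i) : ℕ))))).filter
      (fun p => (R : ℤ) * p.1 - Q * p.2 = u i)))).card : ℝ) ≤
      ∏ i, min (2 * (2 : ℝ) ^ (x i) / Q) (2 * (2 : ℝ) ^ (x' i) / R) := by
    rw [Fintype.card_piFinset, Nat.cast_prod]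
    refine Finset.prod_le_prod (fun _ _ => Nat.cast_nonneg _) fun i _ => ?_
    have h4 := fiber_one Q R hQ hR hco (2 ^ (x i)) (2 ^ (x' i)) (hx i) (hx' i) (u i)
    have h5 : (((2 ^ (x i) : ℕ)) : ℝ) = (2 : ℝ) ^ (x i) := by push_cast; ring
    have h6 : (((2 ^ (x' i) : ℕ)) : ℝ) = (2 : ℝ) ^ (x' i) := by push_cast; ring
    rw [h5, h6] at h4
    exact h4
  exact le_trans (by exact_mod_cast h2) h3

theorem fib_mult (y g : ℕ) (hg : 0 < g) :
    (((qbox y).filter (fun a => g ∣ a)).card : ℝ) ≤ 2 * 2 ^ y / g := by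
  have h1 : (qbox y).filter (fun a => g ∣ a) ⊆ (Finset.Ioc 0 (2 ^ (y + 1))).filter (g ∣ ·) := by
    intro a ha
    obtain ⟨h2, h3⟩ := Finset.mem_filter.1 ha
    unfold qbox at h2
    rw [Finset.mem_Ico] at h2
    refine Finset.mem_filter.2 ⟨Finset.mem_Ioc.2 ⟨?_, h2.2.le⟩, h3⟩
    exact lt_of_lt_of_le (by positivity) h2.1
  have h2 := Finset.card_le_card h1
  rw [Nat.Ioc_filter_dvd_card_eq_div] at h2
  have h3 : (((2 ^ (y + 1)) / g : ℕ) : ℝ) ≤ ((2 ^ (y + 1) : ℕ) : ℝ) / g := Nat.cast_div_le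
  have h4 : ((2 ^ (y + 1) : ℕ) : ℝ) = 2 * 2 ^ y := by
    push_cast
    ring
  rw [h4] at h3
  exact le_trans (by exact_mod_cast h2) h3

/-- few pairs of `qbox y × qbox y'` have a large gcd:
`∑_{g ≥ 2^s} (2^(y+1)/g) (2^(y'+1)/g) ≤ 4·2^y·2^y'·2/2^s` -/
theorem gcd_card (y y' s : ℕ) :
    ((((qbox y) ×ˢ (qbox y')).filter (fun p => 2 ^ s ≤ Nat.gcd p.1 p.2)).card : ℝ)
      ≤ 8 * 2 ^ y * 2 ^ y' / 2 ^ s := by
  classical
  have hs : 0 < 2 ^ s := by positivity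
  have hsub : ((qbox y) ×ˢ (qbox y')).filter (fun p => 2 ^ s ≤ Nat.gcd p.1 p.2) ⊆
      (Finset.Ioo (2 ^ s - 1) (2 ^ (y + 1) + 1)).biUnion (fun g =>
        ((qbox y).filter (fun a => g ∣ a)) ×ˢ ((qbox y').filter (fun a => g ∣ a))) := by
    intro p hp
    obtain ⟨h1, h2⟩ := Finset.mem_filter.1 hp
    obtain ⟨h3, h4⟩ := Finset.mem_product.1 h1
    have h5 := h3
    unfold qbox at h5
    rw [Finset.mem_Ico] at h5
    have h6 : 0 < p.1 := lt_of_lt_of_le (by positivity) h5.1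
    have h7 := Nat.gcd_le_left p.2 h6
    refine Finset.mem_biUnion.2 ⟨Nat.gcd p.1 p.2, Finset.mem_Ioo.2 ⟨by omega, by omega⟩, ?_⟩
    exact Finset.mem_product.2 ⟨Finset.mem_filter.2 ⟨h3, Nat.gcd_dvd_left _ _⟩,
      Finset.mem_filter.2 ⟨h4, Nat.gcd_dvd_right _ _⟩⟩
  have h1 := (Finset.card_le_card hsub).trans Finset.card_biUnion_le
  have h2 : ((((qbox y) ×ˢ (qbox y')).filter (fun p => 2 ^ s ≤ Nat.gcd p.1 p.2)).card : ℝ) ≤
      ∑ g ∈ Finset.Ioo (2 ^ s - 1) (2 ^ (y + 1) + 1),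
        (((((qbox y).filter (fun a => g ∣ a)) ×ˢ ((qbox y').filter (fun a => g ∣ a))).card : ℕ) : ℝ) := by
    rw [← Nat.cast_sum]
    exact_mod_cast h1
  refine h2.trans ?_
  have h3 : ∀ g ∈ Finset.Ioo (2 ^ s - 1) (2 ^ (y + 1) + 1),
      (((((qbox y).filter (fun a => g ∣ a)) ×ˢ ((qbox y').filter (fun a => g ∣ a))).card : ℕ) : ℝ) ≤
        4 * 2 ^ y * 2 ^ y' * ((g : ℝ) ^ 2)⁻¹ := by
    intro g hg
    rw [Finset.mem_Ioo] at hg
    have hg0 : 0 < g := by omega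
    have hgr : (0 : ℝ) < g := by exact_mod_cast hg0
    rw [Finset.card_product, Nat.cast_mul]
    have h4 := fib_mult y g hg0
    have h5 := fib_mult y' g hg0
    have h6 := mul_le_mul h4 h5 (Nat.cast_nonneg _) (by positivity)
    refine h6.trans (le_of_eq ?_)
    field_simp
    ring
  refine (Finset.sum_le_sum h3).trans ?_
  rw [← Finset.mul_sum]
  have h4 := sum_Ioo_inv_sq_le (α := ℝ) (2 ^ s - 1) (2 ^ (y + 1) + 1)
  have h5 : (((2 ^ s - 1 : ℕ) : ℝ) + 1) = 2 ^ s := by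
    rw [Nat.cast_sub hs]
    push_cast
    ring
  rw [h5] at h4
  have h6 := mul_le_mul_of_nonneg_left h4 (show (0 : ℝ) ≤ 4 * 2 ^ y * 2 ^ y' by positivity)
  refine h6.trans (le_of_eq ?_)
  ring

end Pool.DM
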